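import Pool.Agent.H37.Gl4

set_option autoImplicit false

open Pool.Agent.H37.Gl

theorem Pool.Agent.Results.MP_0c20e5_lc.Yes.result (A : Type) [Finite A] (L : Language A) :
    PolG L → Decomposable L :=
  main
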